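import Pool.Agent.Q286.IX.Stm2
import Pool.Agent.Q176.IX.Prod

set_option autoImplicit false

/-!
# Project IX (helper286), job IX-PRODZ (helper162): virtual products of L-functions and their forms
-/

open Filter Topology Finset MeasureTheory
open scoped ComplexConjugate

namespace Pool.Agent.Q162.IX

open Pool.Agent.Q286.IX Pool.Agent.Q176.IX

theorem listProd : ∀ l : List Y23.G.LFun, l ≠ [] → ∃ P : Y23.G.LFun, P.m = (l.map fun L : Y23.G.LFun => L.m).sum ∧
    P.N = (l.map fun L : Y23.G.LFun => L.N).prod ∧ (∀ s : ℂ, P.X s = (l.map fun L : Y23.G.LFun => L.X s).prod) ∧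
    ∀ s : ℂ, H370.mult P.X s = (l.map fun L : Y23.G.LFun => H370.mult L.X s).sum
  | [], h => absurd rfl h
  | [L], _ => ⟨L, by simp, by simp, by simp, by simp⟩
  | L :: L' :: l, _ => by
      obtain ⟨P, h1, h2, h3, h4⟩ := listProd (L' :: l) (by simp)
      refine ⟨prodL L P, ?_, ?_, fun s => ?_, fun s => ?_⟩
      · rw [prodL_m, h1, List.map_cons (l := L' :: l), List.sum_cons]
      · show L.N * P.N = _
        rw [h2, List.map_cons (l := L' :: l), List.prod_cons]
      · show L.X s * P.X s = _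
        rw [h3, List.map_cons (l := L' :: l), List.prod_cons]
      · rw [mult_mul, h4, List.map_cons (l := L' :: l), List.sum_cons]

/-- the list with `|e i|` copies of `L i` -/
def lst {r : ℕ} (L : Fin r → Y23.G.LFun) (e : Fin r → ℤ) : List Y23.G.LFun :=
  (List.ofFn fun i => List.replicate (e i).natAbs (L i)).flatten

theorem lst_sum {r : ℕ} (L : Fin r → Y23.G.LFun) (e : Fin r → ℤ) (g : Y23.G.LFun → ℕ) :
    ((lst L e).map g).sum = ∑ i, (e i).natAbs * g (L i) := by
  unfold lst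
  rw [List.map_flatten, List.sum_flatten, List.map_ofFn, List.map_ofFn, List.sum_ofFn]
  refine Finset.sum_congr rfl fun i _ => ?_
  simp

theorem lst_prod {M : Type*} [CommMonoid M] {r : ℕ} (L : Fin r → Y23.G.LFun) (e : Fin r → ℤ) (g : Y23.G.LFun → M) :
    ((lst L e).map g).prod = ∏ i, g (L i) ^ (e i).natAbs := by
  unfold lst
  rw [List.map_flatten, List.prod_flatten, List.map_ofFn, List.map_ofFn, List.prod_ofFn]
  refine Finset.prod_congr rfl fun i _ => ?_
  simp

/-- **JOB IX-PRODZ** -/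
theorem prodZ : S_ProdZ := by
  intro r L e he
  have hne : lst L e ≠ [] := by
    obtain ⟨i, hi⟩ := he
    intro h
    unfold lst at h
    rw [List.flatten_eq_nil_iff] at h
    have h1 := h (List.replicate (e i).natAbs (L i)) (List.mem_ofFn.2 ⟨i, rfl⟩)
    rw [List.replicate_eq_nil_iff] at h1
    exact hi (Int.natAbs_eq_zero.1 h1)
  obtain ⟨P, h1, h2, h3, h4⟩ := listProd (lst L e) hne
  have h3' : ∀ s : ℂ, P.X s = ∏ i, (L i).X s ^ (e i).natAbs := fun s => by
    rw [h3 s, lst_prod L e (fun L : Y23.G.LFun => L.X s)]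
  have h4' : ∀ s : ℂ, H370.mult P.X s = ∑ i, (e i).natAbs * H370.mult (L i).X s := fun s => by
    rw [h4 s, lst_sum L e (fun L : Y23.G.LFun => H370.mult L.X s)]
  have hoz : ∀ s : ℂ, oz L e s = ∑ i, e i * (H370.mult (L i).X s : ℤ) := fun s => rfl
  refine ⟨P, ?_, ?_, h3', ⟨?_, ?_⟩, ?_⟩
  · rw [h1, lst_sum L e (fun L : Y23.G.LFun => L.m)]
  · rw [h2, lst_prod L e (fun L : Y23.G.LFun => L.N)]
  · intro s _
    show |((oz L e s : ℤ) : ℝ)| ≤ (H370.mult P.X s : ℝ)
    rw [hoz, h4']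
    push_cast
    refine (Finset.abs_sum_le_sum_abs _ _).trans (le_of_eq (Finset.sum_congr rfl fun i _ => ?_))
    rw [abs_mul, abs_of_nonneg (Nat.cast_nonneg _ : (0 : ℝ) ≤ (H370.mult (L i).X s : ℝ)), Nat.cast_natAbs, Int.cast_abs]
  · intro s _
    rw [hoz, hoz]
    refine Finset.sum_congr rfl fun i _ => ?_
    rw [Y23.G.X_mrefl (L := L i)]
  · intro a f ha hf
    have hF : ∀ i, Summable (tm (L i) f) := fun i => tm_summable (L i) ha hf
    have h5 : ∑ i, (e i : ℝ) * Y23.G.QQ (D := Y23.G.zd (L := L i)) f = ∑' s : ℂ, ∑ i, (e i : ℝ) * tm (L i) f s := by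
      rw [Summable.tsum_finsetSum (fun i _ => (hF i).mul_left (e i : ℝ))]
      refine Finset.sum_congr rfl fun i _ => ?_
      rw [QQ_eq, tsum_mul_left]
    have h6 : ∑' ρ : Y23.G.Zt (D := Y23.G.zd (L := P)), (∑ i, (e i : ℝ) * tm (L i) f ρ) =
        ∑' s : ℂ, ∑ i, (e i : ℝ) * tm (L i) f s := by
      refine Subtype.val_injective.tsum_eq (f := fun s : ℂ => ∑ i, (e i : ℝ) * tm (L i) f s) ?_
      intro x hx
      by_contra h0
      refine hx ?_
      have h7 : P.X x ≠ 0 := fun h7 => h0 ⟨⟨x, h7⟩, rfl⟩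
      show ∑ i, (e i : ℝ) * tm (L i) f x = 0
      refine Finset.sum_eq_zero fun i _ => ?_
      by_cases hi : e i = 0
      · rw [hi, Int.cast_zero, zero_mul]
      · rw [h3'] at h7
        have h8 := Finset.prod_ne_zero_iff.1 h7 i (mem_univ i)
        have h9 : (L i).X x ≠ 0 := fun h9 => h8 (by rw [h9, zero_pow (Int.natAbs_ne_zero.2 hi)])
        rw [tm_zero (L i) f h9, mul_zero]
    rw [h5, ← h6]
    unfold QS
    refine tsum_congr fun ρ => ?_
    show ((oz L e (ρ : ℂ) : ℤ) : ℝ) * (Y23.G.GG f f ((ρ : ℂ) - 1 / 2)).re =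
      ∑ i, (e i : ℝ) * ((H370.mult (L i).X (ρ : ℂ) : ℝ) * (Y23.G.GG f f ((ρ : ℂ) - 1 / 2)).re)
    rw [hoz]
    push_cast
    rw [Finset.sum_mul]
    refine Finset.sum_congr rfl fun i _ => ?_
    ring

end Pool.Agent.Q162.IX
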